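import Pool.Agent.MP_5d9b3c_ag.O3.Final
import Pool.Agent.MP_5d9b3c_ag.O3I.Lin

/-!
The strong form of Igusa's monodromy conjecture, for every prime, for the polynomials
`y_1 f_1(x) + ⋯ + y_r f_r(x)` with integer coefficients, where `x` is a tuple of at most three
variables.
-/

namespace Pool.Agent.MP_5d9b3c_ag.Retired.SpaceIdealsOld

open MvPolynomial Pool.Agent.MP_5d9b3c_ag Pool.Agent.MP_5d9b3c_ag.H72

theorem result (n r : ℕ) (hn : n ≤ 3) (f : Fin r → MvPolynomial (Fin n) ℤ) (hf : ∃ i, f i ≠ 0)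
    (F : MvPolynomial (Fin r ⊕ Fin n) ℤ) (hF : F = ∑ i, X (Sum.inl i) * rename Sum.inr (f i))
    (p : ℕ) (hp : p.Prime) (A B : Polynomial ℚ) (hAB : IsCoprime A B)
    (hP : (B : PowerSeries ℚ) * poincare F p = (A : PowerSeries ℚ))
    (T₀ : ℂ) (hT : Polynomial.aeval T₀ B = 0) (b : Polynomial ℂ)
    (hb : IsBFunction (map (Int.castRingHom ℂ) F) b) :
    b.eval ((-(Real.log ‖T₀‖ / Real.log p) : ℝ) : ℂ) = 0 :=
  O3I.main_lin MP_ee8c61_ag.N3.core hn hf hF hp hAB hP hT hb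

end Pool.Agent.MP_5d9b3c_ag.Retired.SpaceIdealsOld
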